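import Pool.Agent.H.MP_29028a_co.Defs

namespace Pool.Agent.H.MP_29028a_co
open Polynomial

noncomputable def M0 : Model where
  S := {(1, 1), (1, 0), (1, -1), (0, 1), (-1, 1), (-1, -1)}
  small := by decide
  nonsing := by
    intro a b h
    have h' : a ≠ 0 ∨ b ≠ 0 := by
      by_contra hc
      push Not at hc
      exact h (by rw [hc.1, hc.2])
    simp only [Finset.mem_insert, Finset.mem_singleton, exists_eq_or_imp, exists_eq_left]
    push_cast
    constructor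
    · by_contra hc
      push Not at hc
      obtain ⟨h1, -, h2, -, h3, h4⟩ := hc
      rcases h' with h' | h' <;> apply h' <;> linarith
    · by_contra hc
      push Not at hc
      obtain ⟨h1, -, h2, -, h3, h4⟩ := hc
      rcases h' with h' | h' <;> apply h' <;> linarith
  w := fun s => if s = (1, 1) then 2 else if s = (-1, -1) then 16 else
    if s = (1, 0) ∨ s = (0, 1) then 13 else 6
  w_pos := by
    intro s _
    split_ifs <;> norm_num
  p := 1
  p_pos := one_pos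
  q := 1

lemma total_eq : M0.total = 56 := by
  simp [Model.total, M0]
  norm_num

lemma P_eq (x y : ℂ) (hx : x ≠ 0) (hy : y ≠ 0) : M0.P x y =
    (2 * x ^ 2 * y ^ 2 + 13 * x ^ 2 * y + 6 * x ^ 2 + 13 * x * y ^ 2 + 6 * y ^ 2 + 16) / (x * y) := by
  simp [Model.P, M0]
  field_simp
  ring

lemma dec1 : M0.Decouples (2 / 127) := by
  have hD : (C 2 * X + C 1 : ℂ[X]) ≠ 0 := by
    intro h
    have := congrArg (eval 0) h
    simp at this
  refine ⟨C (-12) * X ^ 2 + C 32 * X + C (-16), C 2 * X + C 1,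
    C (-12) * X ^ 2 + C 32 * X + C (-16), C 2 * X + C 1, hD, hD, ?_⟩
  intro x y hx hy h h1 h2
  rw [P_eq x y hx hy] at h
  simp only [eval_add, eval_mul, eval_C, eval_X, eval_pow] at h1 h2 ⊢
  have h3 : 127 * (x * y) = 2 * (2 * x ^ 2 * y ^ 2 + 13 * x ^ 2 * y + 6 * x ^ 2 + 13 * x * y ^ 2 +
      6 * y ^ 2 + 16) := by
    push_cast at h
    field_simp at h
    linear_combination h
  show x ^ 1 * y ^ 1 = _
  rw [div_add_div _ _ h1 h2, eq_div_iff (mul_ne_zero h1 h2)]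
  linear_combination -h3

noncomputable def ph (z : ℂ) : ℂ := (104 - 2 * z) / (2 + 39 * z)

def K (x y : ℂ) : ℂ :=
  2 * x ^ 2 * y ^ 2 + 13 * x ^ 2 * y + 6 * x ^ 2 + 13 * x * y ^ 2 + 6 * y ^ 2 + 16 - 676 * (x * y)

lemma K_symm (x y : ℂ) : K x y = K y x := by unfold K; ring

lemma ph_mul {y : ℂ} (hy : 2 + 39 * y ≠ 0) : ph y * (2 + 39 * y) = 104 - 2 * y :=
  div_mul_cancel₀ _ hy

lemma K_ph {x y : ℂ} (hy : 2 + 39 * y ≠ 0) (h : K x y = 0) : K x (ph y) = 0 := by
  have hu := ph_mul hy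
  have : K x (ph y) * (2 + 39 * y) ^ 2 = 4060 * K x y := by
    unfold K
    linear_combination ((2 * x ^ 2 + 13 * x + 6) * (ph y * (2 + 39 * y) + (104 - 2 * y)) +
      (13 * x ^ 2 - 676 * x) * (2 + 39 * y)) * hu
  rw [h, mul_zero] at this
  exact (mul_eq_zero.1 this).resolve_right (pow_ne_zero _ hy)

lemma ph_ph {z : ℂ} (hz : 2 + 39 * z ≠ 0) : ph (ph z) = z := by
  have hu := ph_mul hz
  have h1 : 2 + 39 * ph z ≠ 0 := by
    intro h
    have : (4060 : ℂ) = 0 := by linear_combination (2 + 39 * z) * h - 39 * hu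
    norm_num at this
  rw [ph, div_eq_iff h1]
  linear_combination -hu

lemma quad_fin {a b c : ℂ} (h : ¬ (a = 0 ∧ b = 0 ∧ c = 0)) :
    {z : ℂ | a * z ^ 2 + b * z + c = 0}.Finite := by
  have hp : (C a * X ^ 2 + C b * X + C c : ℂ[X]) ≠ 0 := by
    intro h0
    apply h
    have e0 := congrArg (eval 0) h0
    have e1 := congrArg (eval 1) h0
    have e2 := congrArg (eval (-1)) h0
    simp at e0 e1 e2
    refine ⟨by linear_combination (e1 + e2) / 2 - e0, by linear_combination (e1 - e2) / 2, e0⟩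
  refine (finite_setOfPred_isRoot hp).subset fun z hz => ?_
  simpa [IsRoot] using hz

lemma bad_fin {D : ℂ[X]} (hD : D ≠ 0) : {z : ℂ | ¬ (z ≠ 0 ∧ 2 + 39 * z ≠ 0 ∧ D.eval z ≠ 0 ∧
    ph z ≠ 0 ∧ D.eval (ph z) ≠ 0 ∧ ph z ≠ z)}.Finite := by
  have h1 : (insert 0 {z : ℂ | D.IsRoot z}).Finite := (finite_setOfPred_isRoot hD).insert 0
  have h2 := quad_fin (a := 0) (b := 39) (c := 2) (by norm_num)
  have h3 := quad_fin (a := 39) (b := 4) (c := -104) (by norm_num)
  refine (((h1.union (h1.image ph)).union h2).union h3).subset fun z hz => ?_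
  by_contra hc
  simp only [Set.mem_union, Set.mem_insert_iff, Set.mem_ofPred_eq, not_or, Set.mem_image,
    not_exists, not_and, IsRoot] at hc
  obtain ⟨⟨⟨⟨c1, c2⟩, c3⟩, c4⟩, c5⟩ := hc
  have c6 : 2 + 39 * z ≠ 0 := fun h => c4 (by linear_combination h)
  refine hz ⟨c1, c6, c2, fun h => c3 (ph z) (Or.inl h) (ph_ph c6),
    fun h => c3 (ph z) (Or.inr h) (ph_ph c6), fun h => c5 ?_⟩
  unfold ph at h
  rw [div_eq_iff c6] at h
  linear_combination -h

lemma not_dec2 : ¬ M0.Decouples (1 / 676) := by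
  rintro ⟨N₁, D₁, N₂, D₂, hD₁, hD₂, H⟩
  have H' : ∀ x y : ℂ, x ≠ 0 → y ≠ 0 → K x y = 0 → D₁.eval x ≠ 0 → D₂.eval y ≠ 0 →
      x * y = N₁.eval x / D₁.eval x + N₂.eval y / D₂.eval y := by
    intro x y hx hy h h1 h2
    have := H x y hx hy (by
      rw [P_eq x y hx hy]
      unfold K at h
      push_cast
      field_simp
      linear_combination -h) h1 h2
    simpa [M0] using this
  have f1 := bad_fin hD₁
  have f2 := (bad_fin hD₂).biUnion (t := fun y => {x : ℂ | (2 * y ^ 2 + 13 * y + 6) * x ^ 2 +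
      (13 * y ^ 2 - 676 * y) * x + (6 * y ^ 2 + 16) = 0}) fun y _ => quad_fin (by
        rintro ⟨a, b, c⟩
        have e : y = -2 / 39 := by linear_combination (3 / 39) * a - (1 / 39) * c
        rw [e] at c
        norm_num at c)
  have f3 := quad_fin (a := 2) (b := 13) (c := 6) (by norm_num)
  obtain ⟨x, hx⟩ := ((f1.union f2).union f3).exists_notMem
  simp only [Set.mem_union, not_or, Set.mem_ofPred_eq, not_not] at hx
  obtain ⟨⟨⟨x1, x2, x3, x4, x5, x6⟩, hx2⟩, hx3⟩ := hx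
  obtain ⟨s, hs⟩ := IsAlgClosed.exists_eq_mul_self
    (discrim (2 * x ^ 2 + 13 * x + 6) (13 * x ^ 2 - 676 * x) (6 * x ^ 2 + 16))
  obtain ⟨y, hy⟩ := exists_quadratic_eq_zero hx3 ⟨s, hs⟩
  have hK : K x y = 0 := by unfold K; linear_combination hy
  have hy2 : y ≠ 0 ∧ 2 + 39 * y ≠ 0 ∧ D₂.eval y ≠ 0 ∧
      ph y ≠ 0 ∧ D₂.eval (ph y) ≠ 0 ∧ ph y ≠ y := by
    by_contra hc
    exact hx2 (Set.mem_biUnion (x := y) hc (by
      simp only [Set.mem_ofPred_eq]
      linear_combination hy))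
  obtain ⟨y1, y2, y3, y4, y5, y6⟩ := hy2
  have k2 := K_ph y2 hK
  have k3 : K (ph x) y = 0 := by rw [K_symm] at hK ⊢; exact K_ph x2 hK
  have k4 := K_ph y2 k3
  have e1 := H' _ _ x1 y1 hK x3 y3
  have e2 := H' _ _ x1 y4 k2 x3 y5
  have e3 := H' _ _ x4 y1 k3 x5 y3
  have e4 := H' _ _ x4 y4 k4 x5 y5
  have : (ph x - x) * (ph y - y) = 0 := by linear_combination e1 - e2 - e3 + e4
  rcases mul_eq_zero.1 this with h | h
  · exact x6 (sub_eq_zero.1 h)
  · exact y6 (sub_eq_zero.1 h)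

end Pool.Agent.H.MP_29028a_co
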