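import Mathlib

namespace Pool.Agent.H.MP_29028a_co

/-- a model: non-singular set of small steps, positive weights, starting point `p > 0`, `q ≥ 0` -/
structure Model where
  S : Finset (ℤ × ℤ)
  small : ∀ s ∈ S, s ≠ (0, 0) ∧ -1 ≤ s.1 ∧ s.1 ≤ 1 ∧ -1 ≤ s.2 ∧ s.2 ≤ 1
  nonsing : ∀ a b : ℝ, (a, b) ≠ (0, 0) →
    (∃ s ∈ S, 0 < a * s.1 + b * s.2) ∧ (∃ s ∈ S, a * s.1 + b * s.2 < 0)
  w : ℤ × ℤ → ℝ
  w_pos : ∀ s ∈ S, 0 < w s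
  p : ℕ
  p_pos : 0 < p
  q : ℕ

/-- the step Laurent polynomial `P(x,y)` -/
noncomputable def Model.P (M : Model) (x y : ℂ) : ℂ := ∑ s ∈ M.S, (M.w s : ℂ) * x ^ s.1 * y ^ s.2

/-- the total weight `P(1,1)` -/
noncomputable def Model.total (M : Model) : ℝ := ∑ s ∈ M.S, M.w s

/-- the model decouples at `t`: there are rational functions `N₁/D₁` and `N₂/D₂` with
`x^p y^q = N₁(x)/D₁(x) + N₂(y)/D₂(y)` at every point of the curve `1 - t P(x,y) = 0`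
where both sides are defined -/
def Model.Decouples (M : Model) (t : ℝ) : Prop :=
  ∃ N₁ D₁ N₂ D₂ : Polynomial ℂ, D₁ ≠ 0 ∧ D₂ ≠ 0 ∧
    ∀ x y : ℂ, x ≠ 0 → y ≠ 0 → 1 - (t : ℂ) * M.P x y = 0 → D₁.eval x ≠ 0 → D₂.eval y ≠ 0 →
      x ^ M.p * y ^ M.q = N₁.eval x / D₁.eval x + N₂.eval y / D₂.eval y

end Pool.Agent.H.MP_29028a_co
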